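import Mathlib

set_option autoImplicit false
set_option linter.unusedSectionVars false
set_option linter.unusedVariables false
set_option linter.all false
set_option warn.classDefReducibility false

open Set Topology

namespace Pool.Agent.Results.MP_b69c94_gt.SquareNotLindelof

section omega

variable {Ω : Type} [LinearOrder Ω]

/-- `A` is small if it carries a regressive countable-to-one function (up to a countable set). -/
def Small (A : Set Ω) : Prop :=
  ∃ f : Ω → Ω, {a ∈ A | ¬ f a < a}.Countable ∧ ∀ b, {a ∈ A | f a = b}.Countable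

lemma Small.mono {A B : Set Ω} (h : A ⊆ B) (hB : Small B) : Small A := by
  obtain ⟨f, h1, h2⟩ := hB
  refine ⟨f, h1.mono ?_, fun b => (h2 b).mono ?_⟩
  · rintro a ⟨ha, ha'⟩
    exact ⟨h ha, ha'⟩
  · rintro a ⟨ha, ha'⟩
    exact ⟨h ha, ha'⟩

lemma Small.iUnion {A : ℕ → Set Ω} (h : ∀ n, Small (A n)) : Small (⋃ n, A n) := by
  classical
  choose f h1 h2 using h
  have hex : ∀ a, ∃ n, a ∈ (⋃ n, A n) → a ∈ A n := by
    intro a
    by_cases ha : a ∈ ⋃ n, A n
    · obtain ⟨n, hn⟩ := mem_iUnion.1 ha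
      exact ⟨n, fun _ => hn⟩
    · exact ⟨0, fun h => absurd h ha⟩
  choose N hN using hex
  refine ⟨fun a => f (N a) a, ?_, fun b => ?_⟩
  · refine (countable_iUnion h1).mono ?_
    rintro a ⟨ha, ha'⟩
    exact mem_iUnion.2 ⟨N a, hN a ha, ha'⟩
  · refine (countable_iUnion fun n => h2 n b).mono ?_
    rintro a ⟨ha, ha'⟩
    exact mem_iUnion.2 ⟨N a, hN a ha, ha'⟩

lemma Small.of_countable {A : Set Ω} (h : A.Countable) : Small A :=
  ⟨id, h.mono fun _ ha => ha.1, fun _ => h.mono fun _ ha => ha.1⟩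

lemma Small.union {A B : Set Ω} (hA : Small A) (hB : Small B) : Small (A ∪ B) := by
  have : A ∪ B = ⋃ n : ℕ, (if n = 0 then A else B) := by
    ext a
    simp only [mem_union, mem_iUnion]
    constructor
    · rintro (h | h)
      · exact ⟨0, by simpa using h⟩
      · exact ⟨1, by simpa using h⟩
    · rintro ⟨n, hn⟩
      by_cases h0 : n = 0
      · left; simpa [h0] using hn
      · right; simpa [h0] using hn
  rw [this]
  apply Small.iUnion
  intro n
  by_cases h0 : n = 0 <;> simp [h0, hA, hB]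

variable [WellFoundedLT Ω] (hc : ∀ a : Ω, (Iio a).Countable) [Uncountable Ω]

include hc

lemma countable_Iic (a : Ω) : (Iic a).Countable := by
  have : Iic a = insert a (Iio a) := by
    ext b; simp [le_iff_eq_or_lt]
  rw [this]
  exact (hc a).insert a

/-- countable sets are strictly bounded -/
lemma exists_gt {S : Set Ω} (hS : S.Countable) : ∃ b, ∀ a ∈ S, a < b := by
  by_contra hcon
  push Not at hcon
  have : (univ : Set Ω) ⊆ ⋃ a ∈ S, Iic a := by
    intro b _
    obtain ⟨a, ha, hab⟩ := hcon b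
    exact mem_biUnion ha hab
  have h2 : (univ : Set Ω).Countable := (hS.biUnion fun a _ => countable_Iic hc a).mono this
  exact not_countable_univ h2

lemma not_small_univ : ¬ Small (univ : Set Ω) := by
  rintro ⟨f, h1, h2⟩
  have hstep : ∀ b : Ω, ∃ c, b < c ∧ ∀ a, f a ≤ b → a < c := by
    intro b
    have hcount : ({b} ∪ ⋃ d ∈ Iic b, {a ∈ (univ : Set Ω) | f a = d}).Countable :=
      (countable_singleton b).union ((countable_Iic hc b).biUnion fun d _ => h2 d)
    obtain ⟨c, hcc⟩ := exists_gt hc hcount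
    refine ⟨c, hcc b (Or.inl rfl), fun a ha => hcc a (Or.inr ?_)⟩
    exact mem_biUnion (mem_Iic.2 ha) ⟨mem_univ _, rfl⟩
  choose c hbc hcc using hstep
  obtain ⟨b0, hb0⟩ := exists_gt hc h1
  let s : ℕ → Ω := fun n => c^[n] b0
  have hs : ∀ n, s (n + 1) = c (s n) := fun n => Function.iterate_succ_apply' _ _ _
  -- least upper bound
  have hub : ∃ b, ∀ n, s n < b := by
    obtain ⟨b, hb⟩ := exists_gt hc (countable_range s)
    exact ⟨b, fun n => hb _ (mem_range_self n)⟩
  have hwf : WellFounded ((· < ·) : Ω → Ω → Prop) := wellFounded_lt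
  let m := hwf.min {b | ∀ n, s n < b} hub
  have hm : ∀ n, s n < m := hwf.min_mem {b | ∀ n, s n < b} hub
  have hmin : ∀ b, b < m → ∃ n, b ≤ s n := by
    intro b hb
    by_contra hcon
    push Not at hcon
    exact hwf.not_lt_min {b | ∀ n, s n < b} hcon hb
  have hfm : f m < m := by
    by_contra hcon
    have := hb0 m ⟨mem_univ _, hcon⟩
    exact absurd (hm 0) (not_lt.2 this.le)
  obtain ⟨n, hn⟩ := hmin _ hfm
  have := hcc (s n) m hn
  rw [← hs] at this
  exact absurd (hm (n + 1)) (not_lt.2 this.le)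

/-- limit points -/
def Lim (a : Ω) : Prop := (∃ b, b < a) ∧ ∀ b, b < a → ∃ d, b < d ∧ d < a

omit hc [Uncountable Ω] in
lemma small_not_lim (hc : ∀ a : Ω, (Iio a).Countable) : Small {a : Ω | ¬ Lim a} := by
  classical
  -- predecessor function
  have hex : ∀ a : Ω, ∃ b, (∃ b', b' < a) → ¬ Lim a → b < a ∧ ∀ d, b < d → a ≤ d := by
    intro a
    by_cases h1 : ∃ b', b' < a
    · by_cases h2 : Lim a
      · exact ⟨a, fun _ h => absurd h2 h⟩
      · have : ∃ b, b < a ∧ ∀ d, b < d → a ≤ d := by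
          by_contra hcon
          push Not at hcon
          exact h2 ⟨h1, fun b hb => hcon b hb⟩
        obtain ⟨b, hb⟩ := this
        exact ⟨b, fun _ _ => hb⟩
    · exact ⟨a, fun h => absurd h h1⟩
  choose f hf using hex
  refine ⟨f, ?_, fun b => ?_⟩
  · refine Set.Subsingleton.countable ?_
    rintro a ⟨ha, ha'⟩ b ⟨hb, hb'⟩
    have h1 : ¬ ∃ b', b' < a := fun h => ha' (hf a h ha).1
    have h2 : ¬ ∃ b', b' < b := fun h => hb' (hf b h hb).1
    push Not at h1 h2
    exact le_antisymm (h2 a) (h1 b) |>.symm ▸ rfl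
  · have : {a ∈ {a : Ω | ¬ Lim a} | f a = b} ⊆
        {a ∈ {a : Ω | ¬ Lim a} | f a = b ∧ ∃ b', b' < a} ∪ {a | ¬ ∃ b', b' < a} := by
      rintro a ⟨ha, hab⟩
      by_cases h : ∃ b', b' < a
      · exact Or.inl ⟨ha, hab, h⟩
      · exact Or.inr h
    refine Countable.mono this (Countable.union ?_ ?_)
    · refine Set.Subsingleton.countable ?_
      rintro a ⟨ha, hab, h⟩ a' ⟨ha', hab', h'⟩
      have h1 := hf a h ha
      have h2 := hf a' h' ha'
      rw [hab] at h1
      rw [hab'] at h2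
      exact le_antisymm (h1.2 a' h2.1) (h2.2 a h1.1)
    · refine Set.Subsingleton.countable ?_
      intro a ha a' ha'
      have ha : ¬ ∃ b', b' < a := ha
      have ha' : ¬ ∃ b', b' < a' := ha'
      push Not at ha ha'
      exact le_antisymm (ha a') (ha' a)

/-- Two disjoint non-small sets of limit points (Ulam matrix). -/
lemma exists_disjoint : ∃ A B : Set Ω, ¬ Small A ∧ ¬ Small B ∧ Disjoint A B ∧
    (∀ a ∈ A, Lim a) ∧ (∀ b ∈ B, Lim b) := by
  classical
  have hinj : ∀ a : Ω, ∃ e : Ω → ℕ, InjOn e (Iio a) := fun a =>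
    countable_iff_exists_injOn.1 (hc a)
  choose e he using hinj
  let S : ℕ → Ω → Set Ω := fun n b => {a | Lim a ∧ b < a ∧ e a b = n}
  have h1 : ∀ b : Ω, ∃ n, ¬ Small (S n b) := by
    intro b
    by_contra hcon
    push Not at hcon
    apply not_small_univ hc
    refine Small.mono (B := ((⋃ n, S n b) ∪ {a | ¬ Lim a}) ∪ Iic b) ?_ ?_
    · intro a _
      by_cases hab : b < a
      · by_cases hl : Lim a
        · exact Or.inl (Or.inl (mem_iUnion.2 ⟨e a b, hl, hab, rfl⟩))
        · exact Or.inl (Or.inr hl)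
      · exact Or.inr (not_lt.1 hab)
    · exact ((Small.iUnion hcon).union (small_not_lim hc)).union
        (Small.of_countable (countable_Iic hc b))
  choose n hn using h1
  have hni : ¬ Function.Injective n := by
    intro hi
    have := Function.Injective.countable hi
    exact not_countable (α := Ω) this
  rw [Function.not_injective_iff] at hni
  obtain ⟨b, b', hnb, hbb⟩ := hni
  refine ⟨S (n b) b, S (n b') b', hn b, hn b', ?_, fun a ha => ha.1, fun a ha => ha.1⟩
  rw [Set.disjoint_left]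
  rintro a ⟨-, h1, h2⟩ ⟨-, h3, h4⟩
  apply hbb
  exact he a h1 h3 (by rw [h2, h4, hnb])

end omega

section walks

variable {Ω : Type} [LinearOrder Ω] [WellFoundedLT Ω]

lemma exists_ladder (hc : ∀ a : Ω, (Iio a).Countable) (b : Ω) : ∃ C : Set Ω, (∀ c ∈ C, c < b) ∧
    (∀ a, a < b → ∃ c ∈ C, a ≤ c) ∧ ∀ a, a < b → {c ∈ C | c < a}.Finite := by
  rcases (Iio b).eq_empty_or_nonempty with he | hne
  · refine ⟨∅, by simp, fun a ha => ?_, fun a ha => by simp⟩
    have : a ∈ Iio b := ha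
    rw [he] at this
    exact absurd this (notMem_empty a)
  · obtain ⟨f, hf⟩ := (hc b).exists_eq_range hne
    let g : ℕ → Ω := fun n => Nat.rec (f 0) (fun n x => max x (f (n + 1))) n
    have hg0 : g 0 = f 0 := rfl
    have hgs : ∀ n, g (n + 1) = max (g n) (f (n + 1)) := fun n => rfl
    have hfb : ∀ n, f n < b := fun n => by
      have : f n ∈ Iio b := by rw [hf]; exact mem_range_self n
      exact this
    have hgb : ∀ n, g n < b := by
      intro n
      induction n with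
      | zero => exact hfb 0
      | succ n ih => rw [hgs]; exact max_lt ih (hfb _)
    have hgm : Monotone g := monotone_nat_of_le_succ fun n => by rw [hgs]; exact le_max_left _ _
    have hfg : ∀ n, f n ≤ g n := by
      intro n
      cases n with
      | zero => exact le_rfl
      | succ n => rw [hgs]; exact le_max_right _ _
    refine ⟨range g, ?_, ?_, ?_⟩
    · rintro _ ⟨n, rfl⟩
      exact hgb n
    · intro a ha
      have : a ∈ range f := by rw [← hf]; exact ha
      obtain ⟨n, rfl⟩ := this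
      exact ⟨g n, mem_range_self n, hfg n⟩
    · intro a ha
      have : a ∈ range f := by rw [← hf]; exact ha
      obtain ⟨n, rfl⟩ := this
      refine ((Set.finite_Iio n).image g).subset ?_
      rintro _ ⟨⟨m, rfl⟩, hm⟩
      refine ⟨m, ?_, rfl⟩
      by_contra hcon
      have : n ≤ m := not_lt.1 hcon
      exact absurd hm (not_lt.2 ((hfg n).trans (hgm this)))

open Classical in
/-- maximal weight of the walk (Todorcevic's function rho one), recursion step -/
noncomputable def rhoF (C : Ω → Set Ω) (b : Ω) (ih : ∀ c, c < b → Ω → ℕ) (a : Ω) : ℕ :=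
  if h : ∃ c, (c ∈ C b ∧ a ≤ c) ∧ c < b ∧ ∀ d ∈ C b, a ≤ d → c ≤ d then
    max ({c ∈ C b | c < a}.ncard) (ih h.choose h.choose_spec.2.1 a)
  else 0

/-- maximal weight of the walk (Todorcevic's function rho one) -/
noncomputable def rho (C : Ω → Set Ω) : Ω → Ω → ℕ :=
  (wellFounded_lt (α := Ω)).fix (rhoF C)

lemma rho_unfold (C : Ω → Set Ω) (b a : Ω) : rho C b a = rhoF C b (fun c _ => rho C c) a := by
  unfold rho
  rw [WellFounded.fix_eq]

variable (C : Ω → Set Ω) (hC1 : ∀ b, ∀ c ∈ C b, c < b) (hC2 : ∀ b a, a < b → ∃ c ∈ C b, a ≤ c)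
  (hC3 : ∀ b a, a < b → {c ∈ C b | c < a}.Finite)

include hC1 hC2

lemma exists_next {b a : Ω} (hab : a < b) :
    ∃ c, (c ∈ C b ∧ a ≤ c) ∧ c < b ∧ ∀ d ∈ C b, a ≤ d → c ≤ d := by
  have hne : {c | c ∈ C b ∧ a ≤ c}.Nonempty := by
    obtain ⟨c, hc, hac⟩ := hC2 b a hab
    exact ⟨c, hc, hac⟩
  have hwf : WellFounded ((· < ·) : Ω → Ω → Prop) := wellFounded_lt
  have hm := hwf.min_mem {c | c ∈ C b ∧ a ≤ c} hne
  refine ⟨hwf.min {c | c ∈ C b ∧ a ≤ c} hne, hm, hC1 b _ hm.1, fun d hd had => ?_⟩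
  exact not_lt.1 (hwf.not_lt_min {c | c ∈ C b ∧ a ≤ c} ⟨hd, had⟩)

lemma rho_eq {b a c : Ω} (hab : a < b) (hc : c ∈ C b) (hac : a ≤ c)
    (hmin : ∀ d ∈ C b, a ≤ d → c ≤ d) :
    rho C b a = max ({c ∈ C b | c < a}.ncard) (rho C c a) := by
  have h := exists_next C hC1 hC2 hab
  have h2 : h.choose = c := le_antisymm (h.choose_spec.2.2 c hc hac)
    (hmin _ h.choose_spec.1.1 h.choose_spec.1.2)
  rw [rho_unfold, rhoF, dif_pos h, h2]

include hC3

/-- finite-to-one -/
lemma rho_finite (b : Ω) (n : ℕ) : {a | a < b ∧ rho C b a ≤ n}.Finite := by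
  classical
  induction b using WellFoundedLT.induction with
  | ind b ih =>
    -- the finite set of candidates for the next step
    let F : Set Ω := {c ∈ C b | {d ∈ C b | d < c}.ncard ≤ n}
    have hF : F.Finite := by
      by_contra hinf
      have hinf : F.Infinite := hinf
      obtain ⟨t, htF, htc⟩ := hinf.exists_subset_card_eq (n + 2)
      have hne : t.Nonempty := by
        rw [← Finset.card_pos]; omega
      have hmax := t.max'_mem hne
      have h1 := htF hmax
      have h2 : ((t.erase (t.max' hne) : Finset Ω) : Set Ω) ⊆ {d ∈ C b | d < t.max' hne} := by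
        intro d hd
        rw [Finset.mem_coe, Finset.mem_erase] at hd
        exact ⟨(htF hd.2).1, lt_of_le_of_ne (t.le_max' d hd.2) hd.1⟩
      have h3 := Set.ncard_le_ncard h2 (hC3 b _ (hC1 b _ h1.1))
      rw [Set.ncard_coe_finset, Finset.card_erase_of_mem hmax, htc] at h3
      have h4 := h1.2
      omega
    have hsub : {a | a < b ∧ rho C b a ≤ n} ⊆
        ⋃ c ∈ F, ({a | a < c ∧ rho C c a ≤ n} ∪ {c}) := by
      rintro a ⟨hab, hr⟩
      obtain ⟨c, ⟨hc, hac⟩, hcb, hmin⟩ := exists_next C hC1 hC2 hab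
      rw [rho_eq C hC1 hC2 hab hc hac hmin] at hr
      have h1 : {d ∈ C b | d < c} ⊆ {d ∈ C b | d < a} := by
        rintro d ⟨hd, hdc⟩
        refine ⟨hd, ?_⟩
        by_contra hcon
        exact absurd hdc (not_lt.2 (hmin d hd (not_lt.1 hcon)))
      have h2 := Set.ncard_le_ncard h1 (hC3 b a hab)
      have h3 : c ∈ F := ⟨hc, h2.trans ((le_max_left _ _).trans hr)⟩
      refine mem_biUnion h3 ?_
      rcases hac.lt_or_eq with h | h
      · exact Or.inl ⟨h, (le_max_right _ _).trans hr⟩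
      · exact Or.inr h
    refine Finite.subset (hF.biUnion fun c hc => ?_) hsub
    exact (ih c (hC1 b c hc.1)).union (finite_singleton c)

/-- coherence -/
lemma rho_coherent (b : Ω) : ∀ a, a ≤ b → {x | x < a ∧ rho C a x ≠ rho C b x}.Finite := by
  classical
  induction b using WellFoundedLT.induction with
  | ind b ihb =>
    intro a
    induction a using WellFoundedLT.induction with
    | ind a iha =>
      intro hab
      rcases hab.lt_or_eq with hab | rfl
      swap
      · simp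
      obtain ⟨c, ⟨hc, hac⟩, hcb, hmin⟩ := exists_next C hC1 hC2 hab
      set F : Set Ω := {d ∈ C b | d < a} with hFdef
      have hF : F.Finite := hC3 b a hab
      set n := F.ncard with hn
      have h1 := rho_finite C hC1 hC2 hC3 a n
      have h2 := ihb c hcb a hac
      -- exceptional set
      have hsub : {x | x < a ∧ rho C a x ≠ rho C b x} ⊆
          ({x | x < a ∧ rho C a x ≤ n} ∪ {x | x < a ∧ rho C a x ≠ rho C c x}) ∪
          ⋃ d ∈ F, (({x | x < d ∧ rho C d x ≠ rho C b x} ∪ {x | x < d ∧ rho C d x ≠ rho C a x})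
            ∪ {d}) := by
        rintro x ⟨hxa, hx⟩
        by_cases hd : ∃ d ∈ F, x ≤ d
        · obtain ⟨d, hd, hxd⟩ := hd
          refine Or.inr (mem_biUnion hd ?_)
          rcases hxd.lt_or_eq with h | h
          · left
            by_contra hcon
            simp only [mem_union, not_or, mem_ofPred_eq, not_and, not_not] at hcon
            exact hx ((hcon.2 h).symm.trans (hcon.1 h))
          · exact Or.inr h
        · left
          push Not at hd
          by_contra hcon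
          simp only [mem_union, not_or, mem_ofPred_eq, not_and, not_not, not_le] at hcon
          apply hx
          have hFx : {d ∈ C b | d < x} = F := by
            ext d
            constructor
            · rintro ⟨h3, h4⟩
              exact ⟨h3, h4.trans hxa⟩
            · intro h3
              exact ⟨h3.1, hd d h3⟩
          have hmin' : ∀ d ∈ C b, x ≤ d → c ≤ d := by
            intro d hdC hxd
            apply hmin d hdC
            by_contra hda
            exact absurd (hd d ⟨hdC, not_le.1 hda⟩) (not_lt.2 hxd)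
          rw [rho_eq C hC1 hC2 (hxa.trans hab) hc (hxa.le.trans hac) hmin', hFx, ← hcon.2 hxa]
          exact (max_eq_right (hcon.1 hxa).le).symm
      refine Finite.subset ((h1.union h2).union (hF.biUnion fun d hd => ?_)) hsub
      refine Finite.union (Finite.union ?_ ?_) (finite_singleton d)
      · exact iha d hd.2 (hd.2.le.trans hab.le)
      · exact ihb a hab d hd.2.le

end walks

section tree

/-- A tree of height at most `Ω` with countable levels and without uncountable chains. -/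
structure ATree (Ω T : Type) [LinearOrder Ω] [PartialOrder T] where
  lv : T → Ω
  lv_lt : ∀ {s t : T}, s < t → lv s < lv t
  tree : ∀ {s s' t : T}, s ≤ t → s' ≤ t → s ≤ s' ∨ s' ≤ s
  restr : ∀ (t : T) (a : Ω), a ≤ lv t → ∃ s, s ≤ t ∧ lv s = a
  cnt : ∀ a : Ω, {t | lv t = a}.Countable
  haus : ∀ s t : T, Lim (lv s) → lv s = lv t → (∀ r, r < s → r < t) → s = t
  nochain : ∀ K : Set T, (∀ s ∈ K, ∀ t ∈ K, s ≤ t ∨ t ≤ s) → K.Countable

variable {Ω T : Type} [LinearOrder Ω] [PartialOrder T]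

/-- basic neighbourhoods -/
def Nb (s p : T) : Set T := {u | (s < u ∧ ¬ p ≤ u) ∨ u = p}

lemma Nb_mono {s s' p : T} (h : s ≤ s') : Nb s' p ⊆ Nb s p := by
  rintro u (⟨h1, h2⟩ | h1)
  · exact Or.inl ⟨h.trans_lt h1, h2⟩
  · exact Or.inr h1

lemma mem_Nb (s p : T) : p ∈ Nb s p := Or.inr rfl

variable (𝒯 : ATree Ω T)

lemma ATree.lv_le {𝒯 : ATree Ω T} {s t : T} (h : s ≤ t) : 𝒯.lv s ≤ 𝒯.lv t := by
  rcases h.lt_or_eq with h | h
  · exact (𝒯.lv_lt h).le
  · rw [h]

lemma ATree.eq_of_le {𝒯 : ATree Ω T} {s t : T} (h : s ≤ t) (h2 : 𝒯.lv s = 𝒯.lv t) : s = t := by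
  rcases h.lt_or_eq with h | h
  · exact absurd (𝒯.lv_lt h) (by rw [h2]; exact lt_irrefl _)
  · exact h

/-- the topology -/
def topo (P : Set T) : TopologicalSpace T where
  IsOpen U := ∀ p ∈ U, p ∈ P → ∀ r, r < p → ∃ s, s < p ∧ Nb s p ⊆ U
  isOpen_univ := fun p _ _ r hr => ⟨r, hr, subset_univ _⟩
  isOpen_inter := by
    rintro U V hU hV p ⟨hpU, hpV⟩ hP r hr
    obtain ⟨s, hs, hsU⟩ := hU p hpU hP r hr
    obtain ⟨s', hs', hsV⟩ := hV p hpV hP r hr
    rcases 𝒯.tree hs.le hs'.le with h | h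
    · exact ⟨s', hs', subset_inter ((Nb_mono h).trans hsU) hsV⟩
    · exact ⟨s, hs, subset_inter hsU ((Nb_mono h).trans hsV)⟩
  isOpen_sUnion := by
    rintro S hS p ⟨U, hU, hpU⟩ hP r hr
    obtain ⟨s, hs, hsU⟩ := hS U hU p hpU hP r hr
    exact ⟨s, hs, hsU.trans (subset_sUnion_of_mem hU)⟩

variable {𝒯}

lemma exists_lt {p : T} (h : Lim (𝒯.lv p)) : ∃ r, r < p := by
  obtain ⟨b, hb⟩ := h.1
  obtain ⟨s, hs, hsb⟩ := 𝒯.restr p b hb.le
  refine ⟨s, lt_of_le_of_ne hs ?_⟩
  rintro rfl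
  rw [hsb] at hb
  exact lt_irrefl _ hb

lemma sep {q t : T} (hq : Lim (𝒯.lv q)) (h : ¬ q ≤ t) : ∃ s, s < q ∧ ¬ s ≤ t := by
  by_contra hcon
  push Not at hcon
  rcases le_or_gt (𝒯.lv q) (𝒯.lv t) with h1 | h1
  · obtain ⟨t', ht', hlv⟩ := 𝒯.restr t _ h1
    have : q = t' := by
      apply 𝒯.haus q t' hq hlv.symm
      intro r hr
      rcases 𝒯.tree (hcon r hr) ht' with h2 | h2
      · refine lt_of_le_of_ne h2 ?_
        rintro rfl
        have := 𝒯.lv_lt hr
        rw [hlv] at this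
        exact lt_irrefl _ this
      · have := (𝒯.lv_lt hr).trans_le (hlv.symm.le.trans (ATree.lv_le h2))
        exact absurd this (lt_irrefl _)
    rw [this] at h
    exact h ht'
  · obtain ⟨d, hd1, hd2⟩ := hq.2 _ h1
    obtain ⟨s, hs, hsd⟩ := 𝒯.restr q d hd2.le
    have hsq : s < q := by
      refine lt_of_le_of_ne hs ?_
      rintro rfl
      rw [hsd] at hd2
      exact lt_irrefl _ hd2
    have := ATree.lv_le (𝒯 := 𝒯) (hcon s hsq)
    rw [hsd] at this
    exact absurd hd1 (not_lt.2 this)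

variable {P : Set T} (hP : ∀ p ∈ P, Lim (𝒯.lv p))

include hP

lemma isOpen_Nb {s p : T} (h : p ∈ P → s < p) : IsOpen[topo 𝒯 P] (Nb s p) := by
  rintro q hq hqP r hr
  rcases hq with ⟨h1, h2⟩ | rfl
  · by_cases h3 : q ≤ p
    · have h3 : q < p := lt_of_le_of_ne h3 (by rintro rfl; exact h2 le_rfl)
      refine ⟨s, h1, ?_⟩
      rintro v (⟨h4, h5⟩ | rfl)
      · exact Or.inl ⟨h4, fun h6 => h5 (h3.le.trans h6)⟩
      · exact Or.inl ⟨h1, h2⟩
    · obtain ⟨s', hs', hs'p⟩ := sep (𝒯 := 𝒯) (hP q hqP) h3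
      have key : ∀ s'', s'' < q → ¬ s'' ≤ p → s ≤ s'' → Nb s'' q ⊆ Nb s p := by
        rintro s'' hs'' h4 h5 v (⟨h6, h7⟩ | rfl)
        · refine Or.inl ⟨h5.trans_lt h6, fun h8 => ?_⟩
          rcases 𝒯.tree h6.le h8 with h9 | h9
          · exact h4 h9
          · exact h2 (h9.trans hs''.le)
        · exact Or.inl ⟨h1, h2⟩
      rcases 𝒯.tree hs'.le h1.le with h4 | h4
      · exact ⟨s, h1, key s h1 (fun h5 => hs'p (h4.trans h5)) le_rfl⟩
      · exact ⟨s', hs', key s' hs' hs'p h4⟩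
  · exact ⟨s, h hqP, subset_rfl⟩

lemma isOpen_singleton {p : T} (h : p ∉ P) : IsOpen[topo 𝒯 P] {p} := by
  rintro q hq hqP r hr
  rw [mem_singleton_iff] at hq
  rw [hq] at hqP
  exact absurd hqP h

lemma isClosed_singleton' (p : T) : IsClosed[topo 𝒯 P] {p} := by
  letI := topo 𝒯 P
  rw [← isOpen_compl_iff]
  rintro q hq hqP r hr
  have hqp : q ≠ p := hq
  by_cases h : q ≤ p
  · refine ⟨r, hr, ?_⟩
    rintro v (⟨h1, h2⟩ | rfl)
    · rintro rfl
      exact h2 h
    · exact hq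
  · obtain ⟨s, hs, hsp⟩ := sep (𝒯 := 𝒯) (hP q hqP) h
    refine ⟨s, hs, ?_⟩
    rintro v (⟨h1, h2⟩ | rfl)
    · rintro rfl
      exact hsp h1.le
    · exact hq

lemma isClosed_Nb {s p : T} (hsp : s < p) : IsClosed[topo 𝒯 P] (Nb s p) := by
  letI := topo 𝒯 P
  rw [← isOpen_compl_iff]
  rintro q hq hqP r hr
  have hqp : q ≠ p := fun h => hq (Or.inr h)
  have hq' : s < q → p ≤ q := by
    intro h
    by_contra h2
    exact hq (Or.inl ⟨h, h2⟩)
  by_cases h1 : p ≤ q
  · have h1 : p < q := lt_of_le_of_ne h1 (Ne.symm hqp)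
    refine ⟨p, h1, ?_⟩
    rintro v (⟨h2, h3⟩ | rfl) hv
    · rcases hv with ⟨h4, h5⟩ | rfl
      · exact h5 h2.le
      · exact lt_irrefl _ h2
    · exact hq hv
  · have h2 : ¬ s < q := fun h => h1 (hq' h)
    by_cases h3 : q ≤ s
    · refine ⟨r, hr, ?_⟩
      rintro v (⟨h4, h5⟩ | rfl) hv
      · rcases hv with ⟨h6, h7⟩ | rfl
        · exact h5 (h3.trans h6.le)
        · exact h5 (h3.trans hsp.le)
      · exact hq hv
    · obtain ⟨s', hs', h4⟩ := sep (𝒯 := 𝒯) (hP q hqP) h3
      refine ⟨s', hs', ?_⟩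
      rintro v (⟨h5, h6⟩ | rfl) hv
      · have h7 : s < v := by
          rcases hv with ⟨h7, h8⟩ | rfl
          · exact h7
          · exact hsp
        rcases 𝒯.tree h5.le h7.le with h8 | h8
        · exact h4 h8
        · exact h2 (h8.trans_lt hs')
      · exact hq hv

lemma exists_clopen (x : T) (U : Set T) (hU : IsOpen[topo 𝒯 P] U) (hx : x ∈ U) :
    ∃ V : Set T, x ∈ V ∧ V ⊆ U ∧ IsOpen[topo 𝒯 P] V ∧ IsClosed[topo 𝒯 P] V := by
  by_cases hxP : x ∈ P
  · obtain ⟨r, hr⟩ := exists_lt (hP x hxP)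
    obtain ⟨s, hs, hsU⟩ := hU x hx hxP r hr
    exact ⟨Nb s x, mem_Nb _ _, hsU, isOpen_Nb hP fun _ => hs, isClosed_Nb hP hs⟩
  · exact ⟨{x}, rfl, by simpa using hx, isOpen_singleton hP hxP, isClosed_singleton' hP x⟩

lemma t3 : @T3Space T (topo 𝒯 P) := by
  letI := topo 𝒯 P
  haveI : T1Space T := ⟨fun x => isClosed_singleton' hP x⟩
  haveI : RegularSpace T := by
    apply RegularSpace.of_exists_mem_nhds_isClosed_subset
    intro x U hU
    obtain ⟨W, hWU, hW, hxW⟩ := mem_nhds_iff.1 hU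
    obtain ⟨V, hxV, hVW, hVo, hVc⟩ := exists_clopen hP x W hW hxW
    exact ⟨V, hVo.mem_nhds hxV, hVc, hVW.trans hWU⟩
  infer_instance

end tree


section lindelof

variable {Ω T : Type} [LinearOrder Ω] [PartialOrder T] (𝒯 : ATree Ω T)

include 𝒯 in
lemma level_lemma (A : Set Ω) (hA : ¬ Small A) (R : T → T → Prop) (good : T → Prop)
    (hgood : ∀ s t, s ≤ t → good s → good t)
    (hR : ∀ p, 𝒯.lv p ∈ A → ∃ s, s < p ∧ R s p)
    (hRR : ∀ s p p', s < p → s < p' → R s p → R s p' → ¬ p ≤ p' → ¬ p' ≤ p → good s) :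
    ∃ a, ∀ t, 𝒯.lv t = a → good t := by
  by_contra hcon
  push Not at hcon
  choose q hq hqg using hcon
  have hex : ∀ a, ∃ s, a ∈ A → s < q a ∧ R s (q a) := by
    intro a
    by_cases ha : a ∈ A
    · obtain ⟨s, hs⟩ := hR (q a) (by rw [hq]; exact ha)
      exact ⟨s, fun _ => hs⟩
    · exact ⟨q a, fun h => absurd h ha⟩
  choose s hs using hex
  apply hA
  refine ⟨fun a => 𝒯.lv (s a), ?_, fun b => ?_⟩
  · refine Set.Countable.mono ?_ countable_empty
    rintro a ⟨ha, ha'⟩
    apply ha'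
    have := 𝒯.lv_lt (hs a ha).1
    rwa [hq] at this
  · have hsub : {a ∈ A | 𝒯.lv (s a) = b} ⊆ ⋃ s0 ∈ {t | 𝒯.lv t = b}, {a ∈ A | s a = s0} := by
      rintro a ⟨ha, ha'⟩
      exact mem_biUnion (x := s a) ha' ⟨ha, rfl⟩
    refine Countable.mono hsub ((𝒯.cnt b).biUnion fun s0 _ => ?_)
    have hqi : InjOn q {a ∈ A | s a = s0} := by
      intro a _ a' _ h
      rw [← hq a, ← hq a', h]
    have hch : (q '' {a ∈ A | s a = s0}).Countable := by
      apply 𝒯.nochain
      rintro _ ⟨a, ⟨ha, has⟩, rfl⟩ _ ⟨a', ⟨ha', has'⟩, rfl⟩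
      by_contra hcon
      push Not at hcon
      have h1 := hs a ha
      have h2 := hs a' ha'
      rw [has] at h1
      rw [has'] at h2
      exact hqg a (hgood s0 _ h1.1.le (hRR s0 _ _ h1.1 h2.1 h1.2 h2.2 hcon.1 hcon.2))
    exact countable_of_injective_of_countable_image hqi hch

include 𝒯 in
lemma below_countable (hc : ∀ a : Ω, (Iio a).Countable) (a : Ω) : {t | 𝒯.lv t < a}.Countable := by
  have : {t | 𝒯.lv t < a} = ⋃ b ∈ Iio a, {t | 𝒯.lv t = b} := by
    ext t; simp
  rw [this]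
  exact (hc a).biUnion fun b _ => 𝒯.cnt b

include 𝒯 in
lemma cone_subset {s p p' u : T} (hu : s < u) (h1 : ¬ p ≤ p') (h2 : ¬ p' ≤ p) :
    u ∈ Nb s p ∨ u ∈ Nb s p' := by
  by_cases h3 : p ≤ u
  · right
    refine Or.inl ⟨hu, fun h4 => ?_⟩
    rcases 𝒯.tree h3 h4 with h5 | h5
    · exact h1 h5
    · exact h2 h5
  · exact Or.inl (Or.inl ⟨hu, h3⟩)

theorem lindelof (hc : ∀ a : Ω, (Iio a).Countable) (A : Set Ω) (hA : ¬ Small A)
    (hAL : ∀ a ∈ A, Lim a) : @LindelofSpace T (topo 𝒯 {t | 𝒯.lv t ∈ A}) := by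
  letI := topo 𝒯 {t | 𝒯.lv t ∈ A}
  refine ⟨isLindelof_of_countable_subcover fun {ι} U hU hcov => ?_⟩
  have hcov' : ∀ t : T, ∃ i, t ∈ U i := fun t => mem_iUnion.1 (hcov (mem_univ t))
  choose j hj using hcov'
  obtain ⟨a, ha⟩ := level_lemma 𝒯 A hA (fun s p => ∃ i, Nb s p ⊆ U i)
    (fun s => ∃ t : Set ι, t.Countable ∧ {u | s ≤ u} ⊆ ⋃ i ∈ t, U i)
    (by
      rintro s t hst ⟨c, hc, hcs⟩
      exact ⟨c, hc, fun u hu => hcs (hst.trans hu)⟩)
    (by
      intro p hp
      obtain ⟨r, hr⟩ := exists_lt (hAL _ hp)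
      obtain ⟨s, hs, hsU⟩ := hU (j p) p (hj p) hp r hr
      exact ⟨s, hs, j p, hsU⟩)
    (by
      rintro s p p' hsp hsp' ⟨i, hi⟩ ⟨i', hi'⟩ h1 h2
      refine ⟨{i, i', j s}, by simp, ?_⟩
      intro u hu
      have hu : s ≤ u := hu
      rcases hu.lt_or_eq with h | h
      · rcases cone_subset 𝒯 h h1 h2 with h3 | h3
        · exact mem_biUnion (x := i) (by simp) (hi h3)
        · exact mem_biUnion (x := i') (by simp) (hi' h3)
      · subst h
        exact mem_biUnion (x := j s) (by simp) (hj s))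
  have hex : ∀ t, ∃ c : Set ι, c.Countable ∧ (𝒯.lv t = a → {u | t ≤ u} ⊆ ⋃ i ∈ c, U i) := by
    intro t
    by_cases h : 𝒯.lv t = a
    · obtain ⟨c, hc, hcs⟩ := ha t h
      exact ⟨c, hc, fun _ => hcs⟩
    · exact ⟨∅, countable_empty, fun h' => absurd h' h⟩
  choose c hcc hcs using hex
  refine ⟨(j '' {t | 𝒯.lv t < a}) ∪ ⋃ t ∈ {t | 𝒯.lv t = a}, c t,
    ((below_countable 𝒯 hc a).image j).union ((𝒯.cnt a).biUnion fun t _ => hcc t), ?_⟩
  intro u _
  rcases lt_or_ge (𝒯.lv u) a with h | h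
  · exact mem_biUnion (x := j u) (Or.inl ⟨u, h, rfl⟩) (hj u)
  · obtain ⟨t, htu, ht⟩ := 𝒯.restr u a h
    obtain ⟨i, hi, hui⟩ := mem_iUnion₂.1 (hcs t ht htu)
    exact mem_biUnion (x := i) (Or.inr (mem_biUnion (x := t) ht hi)) hui

theorem countable_img (hc : ∀ a : Ω, (Iio a).Countable) [WellFoundedLT Ω] [Uncountable Ω]
    (A : Set Ω) (hA : ¬ Small A)
    (hAL : ∀ a ∈ A, Lim a) {Z : Type} [TopologicalSpace Z] [T35Space Z] [SecondCountableTopology Z]
    (h : T → Z) (hh : @Continuous T Z (topo 𝒯 {t | 𝒯.lv t ∈ A}) _ h) : (range h).Countable := by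
  letI := topo 𝒯 {t | 𝒯.lv t ∈ A}
  letI : MetricSpace Z := TopologicalSpace.metrizableSpaceMetric Z
  have key : ∀ n : ℕ, ∃ a, ∀ t, 𝒯.lv t = a → ∀ u v, t < u → t < v →
      dist (h u) (h v) < 3 * (1 / (n + 1 : ℝ)) := by
    intro n
    have hpos : (0 : ℝ) < 1 / (n + 1 : ℝ) := Nat.one_div_pos_of_nat
    set ε : ℝ := 1 / (n + 1 : ℝ)
    apply level_lemma 𝒯 A hA (fun s p => ∀ u ∈ Nb s p, dist (h u) (h p) < ε)
    · intro s t hst hs u v hu hv
      exact hs u v (hst.trans_lt hu) (hst.trans_lt hv)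
    · intro p hp
      obtain ⟨r, hr⟩ := exists_lt (hAL _ hp)
      have hop : IsOpen (h ⁻¹' Metric.ball (h p) ε) := Metric.isOpen_ball.preimage hh
      obtain ⟨s, hs, hsU⟩ := hop p (Metric.mem_ball_self hpos) hp r hr
      exact ⟨s, hs, fun u hu => hsU hu⟩
    · intro s p p' hsp hsp' h1 h2 h3 h4 u v hu hv
      have hpp : dist (h p') (h p) < ε := h1 p' (Or.inl ⟨hsp', h3⟩)
      have hpp' : dist (h p) (h p') < ε := by rwa [dist_comm] at hpp
      rcases cone_subset 𝒯 hu h3 h4 with hu' | hu' <;> rcases cone_subset 𝒯 hv h3 h4 with hv' | hv'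
      · have e1 := h1 u hu'
        have e2 := h1 v hv'
        rw [dist_comm] at e2
        have := dist_triangle (h u) (h p) (h v)
        linarith
      · have e1 := h1 u hu'
        have e2 := h2 v hv'
        rw [dist_comm] at e2
        have := dist_triangle4 (h u) (h p) (h p') (h v)
        linarith
      · have e1 := h2 u hu'
        have e2 := h1 v hv'
        rw [dist_comm] at e2
        have := dist_triangle4 (h u) (h p') (h p) (h v)
        linarith
      · have e1 := h2 u hu'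
        have e2 := h2 v hv'
        rw [dist_comm] at e2
        have := dist_triangle (h u) (h p') (h v)
        linarith
  choose a ha using key
  obtain ⟨b, hb⟩ := exists_gt hc (Set.countable_range a)
  have hb' : ∀ n, a n ≤ b := fun n => (hb _ (mem_range_self n)).le
  have hconst : ∀ t, 𝒯.lv t = b → ∀ u v, t < u → t < v → h u = h v := by
    intro t ht u v hu hv
    by_contra hne
    have hd : 0 < dist (h u) (h v) := dist_pos.2 hne
    obtain ⟨n, hn⟩ := exists_nat_one_div_lt (show 0 < dist (h u) (h v) / 3 by positivity)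
    obtain ⟨s, hs, hsa⟩ := 𝒯.restr t (a n) (by rw [ht]; exact hb' n)
    have := ha n s hsa u v (hs.trans_lt hu) (hs.trans_lt hv)
    linarith
  have hex : ∀ t, ∃ z, 𝒯.lv t = b → ∀ u, t < u → h u = z := by
    intro t
    by_cases hu : ∃ u, t < u
    · obtain ⟨u, hu⟩ := hu
      exact ⟨h u, fun ht v hv => hconst t ht v u hv hu⟩
    · exact ⟨h t, fun _ u hu' => absurd ⟨u, hu'⟩ hu⟩
  choose z hz using hex
  have hsub : range h ⊆ h '' {t | 𝒯.lv t < b} ∪ h '' {t | 𝒯.lv t = b} ∪ z '' {t | 𝒯.lv t = b} := by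
    rintro _ ⟨u, rfl⟩
    rcases lt_trichotomy (𝒯.lv u) b with h1 | h1 | h1
    · exact Or.inl (Or.inl ⟨u, h1, rfl⟩)
    · exact Or.inl (Or.inr ⟨u, h1, rfl⟩)
    · obtain ⟨t, htu, ht⟩ := 𝒯.restr u b h1.le
      have : t < u := lt_of_le_of_ne htu (by
        rintro rfl
        rw [ht] at h1
        exact lt_irrefl _ h1)
      exact Or.inr ⟨t, ht, (hz t ht u this).symm⟩
  exact ((((below_countable 𝒯 hc b).image h).union ((𝒯.cnt b).image h)).union
    ((𝒯.cnt b).image z)).mono hsub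

end lindelof

section concrete

variable {Ω : Type} [LinearOrder Ω] [WellFoundedLT Ω]

/-- nodes: pairs consisting of a level and the restriction of a function `rho C b` below it -/
structure Node (C : Ω → Set Ω) : Type where
  lv : Ω
  fn : Ω → ℕ
  zero : ∀ x, ¬ x < lv → fn x = 0
  wit : ∃ b, lv ≤ b ∧ ∀ x, x < lv → fn x = rho C b x

variable {C : Ω → Set Ω}

lemma Node.ext' {s t : Node C} (h1 : s.lv = t.lv) (h2 : ∀ x, x < s.lv → s.fn x = t.fn x) :
    s = t := by
  obtain ⟨a, f, hf, hw⟩ := s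
  obtain ⟨a', f', hf', hw'⟩ := t
  dsimp only at h1 h2
  subst h1
  have : f = f' := by
    funext x
    by_cases hx : x < a
    · exact h2 x hx
    · rw [hf x hx, hf' x hx]
  subst this
  rfl

instance : PartialOrder (Node C) where
  le s t := s.lv ≤ t.lv ∧ ∀ x, x < s.lv → s.fn x = t.fn x
  le_refl s := ⟨le_rfl, fun _ _ => rfl⟩
  le_trans s t u h1 h2 := ⟨h1.1.trans h2.1, fun x hx =>
    (h1.2 x hx).trans (h2.2 x (hx.trans_le h1.1))⟩
  le_antisymm s t h1 h2 := Node.ext' (le_antisymm h1.1 h2.1) h1.2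

lemma Node.le_def {s t : Node C} : s ≤ t ↔ s.lv ≤ t.lv ∧ ∀ x, x < s.lv → s.fn x = t.fn x := Iff.rfl

open Classical in
/-- restriction of a node -/
noncomputable def Node.res (t : Node C) (a : Ω) (h : a ≤ t.lv) : Node C where
  lv := a
  fn := fun x => if x < a then t.fn x else 0
  zero := fun x hx => if_neg hx
  wit := by
    obtain ⟨b, hb, hbx⟩ := t.wit
    refine ⟨b, h.trans hb, fun x hx => ?_⟩
    rw [if_pos hx]
    exact hbx x (hx.trans_le h)

lemma Node.res_le (t : Node C) (a : Ω) (h : a ≤ t.lv) : t.res a h ≤ t :=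
  ⟨h, fun _ hx => if_pos hx⟩

lemma Node.lt_lv {s t : Node C} (h : s < t) : s.lv < t.lv := by
  refine lt_of_le_of_ne h.le.1 fun h1 => ?_
  exact h.ne (Node.ext' h1 h.le.2)

variable (hc : ∀ a : Ω, (Iio a).Countable) (hC1 : ∀ b, ∀ c ∈ C b, c < b)
  (hC2 : ∀ b a, a < b → ∃ c ∈ C b, a ≤ c)
  (hC3 : ∀ b a, a < b → {c ∈ C b | c < a}.Finite)

include hc hC1 hC2 hC3

lemma Node.countable_level (a : Ω) : {t : Node C | t.lv = a}.Countable := by
  let G : Node C → Set (Ω × ℕ) := fun t => {p | p.1 < a ∧ t.fn p.1 = p.2 ∧ p.2 ≠ rho C a p.1}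
  have h1 : InjOn G {t : Node C | t.lv = a} := by
    intro s hs t ht hG
    have hs : s.lv = a := hs
    have ht : t.lv = a := ht
    refine Node.ext' (hs.trans ht.symm) fun x hx => ?_
    rw [hs] at hx
    by_cases h : s.fn x = rho C a x
    · by_cases h' : t.fn x = rho C a x
      · rw [h, h']
      · have : (x, t.fn x) ∈ G t := ⟨hx, rfl, h'⟩
        rw [← hG] at this
        exact this.2.1
    · have : (x, s.fn x) ∈ G s := ⟨hx, rfl, h⟩
      rw [hG] at this
      exact this.2.1.symm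
  have h2 : (G '' {t : Node C | t.lv = a}) ⊆ {F | F.Finite ∧ F ⊆ (Iio a) ×ˢ (univ : Set ℕ)} := by
    rintro _ ⟨t, ht, rfl⟩
    have ht : t.lv = a := ht
    refine ⟨?_, fun p hp => ⟨hp.1, mem_univ _⟩⟩
    obtain ⟨b, hb, hbx⟩ := t.wit
    rw [ht] at hb hbx
    have hfin := rho_coherent C hC1 hC2 hC3 b a hb
    refine (hfin.image fun x => (x, t.fn x)).subset ?_
    rintro ⟨x, n⟩ ⟨hx, hn, hne⟩
    dsimp only at hx hn hne
    refine ⟨x, ⟨hx, ?_⟩, by rw [← hn]⟩
    rw [← hbx x hx, hn]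
    exact hne.symm
  have h3 : (G '' {t : Node C | t.lv = a}).Countable :=
    (Set.countable_ofPred_finite_subset ((hc a).prod countable_univ)).mono h2
  exact countable_of_injective_of_countable_image h1 h3

lemma Node.countable_chain [Uncountable Ω] (K : Set (Node C))
    (hK : ∀ s ∈ K, ∀ t ∈ K, s ≤ t ∨ t ≤ s) : K.Countable := by
  classical
  by_contra hun
  have hinj : InjOn Node.lv K := by
    intro s hs t ht hst
    have hst : s.lv = t.lv := hst
    rcases hK s hs t ht with h | h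
    · exact Node.ext' hst h.2
    · exact (Node.ext' hst.symm h.2).symm
  have hunb : ∀ a : Ω, ∃ s ∈ K, a < s.lv := by
    intro a
    by_contra hcon
    push Not at hcon
    apply hun
    refine countable_of_injective_of_countable_image hinj ((countable_Iic hc a).mono ?_)
    rintro _ ⟨s, hs, rfl⟩
    exact hcon s hs
  choose s hsK hs using hunb
  let g : Ω → ℕ := fun x => (s x).fn x
  have hg : ∀ t ∈ K, ∀ x, x < t.lv → t.fn x = g x := by
    intro t ht x hx
    rcases hK t ht (s x) (hsK x) with h | h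
    · exact h.2 x hx
    · exact (h.2 x (hs x)).symm
  have hn : ∃ n, ¬ (g ⁻¹' {n}).Countable := by
    by_contra hcon
    push Not at hcon
    have : (univ : Set Ω) = ⋃ n, g ⁻¹' {n} := by
      ext x; simp
    exact not_countable_univ (this ▸ countable_iUnion hcon)
  obtain ⟨n, hn⟩ := hn
  have hinf : (g ⁻¹' {n}).Infinite := fun h => hn h.countable
  obtain ⟨D, hDs, hDi, hDc⟩ : ∃ D ⊆ g ⁻¹' {n}, D.Infinite ∧ D.Countable := by
    obtain ⟨e⟩ : Nonempty (ℕ ↪ g ⁻¹' {n}) := ⟨hinf.natEmbedding⟩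
    refine ⟨range fun k => (e k : Ω), ?_, ?_, countable_range _⟩
    · rintro _ ⟨k, rfl⟩
      exact (e k).2
    · exact infinite_range_of_injective (Subtype.val_injective.comp e.injective)
  obtain ⟨b, hb⟩ := exists_gt hc hDc
  obtain ⟨b', hb', hbx⟩ := (s b).wit
  have hfin := rho_finite C hC1 hC2 hC3 b' n
  apply hDi
  refine hfin.subset fun x hx => ?_
  have h1 : x < (s b).lv := (hb x hx).trans (hs b)
  refine ⟨h1.trans_le hb', ?_⟩
  rw [← hbx x h1, hg _ (hsK b) x h1]
  exact (hDs hx).le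

/-- the tree -/
noncomputable def Node.tree [Uncountable Ω] : ATree Ω (Node C) where
  lv := Node.lv
  lv_lt := Node.lt_lv
  tree := by
    intro s s' t h h'
    rcases le_total s.lv s'.lv with h1 | h1
    · exact Or.inl ⟨h1, fun x hx => (h.2 x hx).trans (h'.2 x (hx.trans_le h1)).symm⟩
    · exact Or.inr ⟨h1, fun x hx => (h'.2 x hx).trans (h.2 x (hx.trans_le h1)).symm⟩
  restr := fun t a h => ⟨t.res a h, t.res_le a h, rfl⟩
  cnt := Node.countable_level hc hC1 hC2 hC3
  haus := by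
    intro s t hs hst h
    refine Node.ext' hst fun x hx => ?_
    obtain ⟨d, hxd, hd⟩ := hs.2 x hx
    have h1 : s.res d hd.le < s := by
      refine lt_of_le_of_ne (s.res_le d hd.le) fun h => ?_
      have : d = s.lv := congrArg Node.lv h
      exact hd.ne this
    have h2 := (h _ h1).le.2 x hxd
    have h3 := h1.le.2 x hxd
    exact h3.symm.trans h2
  nochain := Node.countable_chain hc hC1 hC2 hC3

lemma Node.uncountable [Uncountable Ω] : Uncountable (Node C) := by
  classical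
  have hinj : Function.Injective (fun a : Ω => (⟨a, fun x => if x < a then rho C a x else 0,
    fun x hx => if_neg hx, ⟨a, le_rfl, fun x hx => if_pos hx⟩⟩ : Node C)) := by
    intro a b h
    exact congrArg Node.lv h
  exact hinj.uncountable

end concrete

lemma exists_omega : ∃ (Ω : Type) (_ : LinearOrder Ω), WellFoundedLT Ω ∧ Uncountable Ω ∧
    ∀ a : Ω, (Iio a).Countable := by
  refine ⟨(Cardinal.aleph 1).ord.ToType, inferInstance, inferInstance, ?_, fun a => ?_⟩
  · rw [← not_countable_iff, ← Cardinal.mk_le_aleph0_iff, Cardinal.mk_ord_toType, not_le]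
    exact Cardinal.aleph0_lt_aleph_one
  · have := Cardinal.mk_Iio_lt a (by simp)
    rw [Cardinal.mk_ord_toType] at this
    rwa [← Cardinal.le_aleph0_iff_set_countable, ← Order.lt_succ_iff, Cardinal.succ_aleph0]

section final

/-- `Y` has a countable network (`Y` is cosmic). -/
def Cosmic (Y : Type) [TopologicalSpace Y] : Prop :=
  ∃ N : Set (Set Y), N.Countable ∧ ∀ U : Set Y, IsOpen U → ∃ M : Set (Set Y), M ⊆ N ∧ U = ⋃₀ M

/-- `X` is `ω`-stable: every (Tychonoff) continuous image `Y` of `X` which admits a continuous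
bijection onto a second countable (Tychonoff) space `Z` is cosmic. -/
def OmegaStable (X : Type) [TopologicalSpace X] : Prop :=
  ∀ (Y Z : Type) [TopologicalSpace Y] [TopologicalSpace Z] [T35Space Y] [T35Space Z]
    [SecondCountableTopology Z] (f : X → Y) (g : Y → Z),
    Continuous f → Function.Surjective f → Continuous g → Function.Bijective g → Cosmic Y

variable {Ω T : Type} [LinearOrder Ω] [PartialOrder T]

/-- the tree with the topology given by the set of levels `A` -/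
def Sp (𝒯 : ATree Ω T) (_ : Set Ω) : Type := T

instance (𝒯 : ATree Ω T) (A : Set Ω) : TopologicalSpace (Sp 𝒯 A) :=
  (topo 𝒯 {t : T | 𝒯.lv t ∈ A} : TopologicalSpace T)

variable {𝒯 : ATree Ω T}

lemma isOpen_mono {A B : Set Ω} (h : A ⊆ B) (U : Set T) (hU : IsOpen[topo 𝒯 {t | 𝒯.lv t ∈ B}] U) :
    IsOpen[topo 𝒯 {t | 𝒯.lv t ∈ A}] U := fun p hp hpA => hU p hp (h hpA)

/-- the identity map to the coarser space -/
def toSp (𝒯 : ATree Ω T) {A B : Set Ω} : Sp 𝒯 A → Sp 𝒯 B := fun t => t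

lemma continuous_toSp {A B : Set Ω} (h : A ⊆ B) : Continuous (toSp 𝒯 : Sp 𝒯 A → Sp 𝒯 B) := by
  refine ⟨fun U hU => ?_⟩
  exact isOpen_mono (T := T) (𝒯 := 𝒯) h U hU

lemma isOpen_sing {A : Set Ω} (hAL : ∀ a ∈ A, Lim a) (t : T) (h : 𝒯.lv t ∉ A) :
    IsOpen ({t} : Set (Sp 𝒯 A)) :=
  isOpen_singleton (𝒯 := 𝒯) (P := {t | 𝒯.lv t ∈ A}) (fun p hp => hAL _ hp) h

lemma countable_img' [WellFoundedLT Ω] [Uncountable Ω] (hc : ∀ a : Ω, (Iio a).Countable)
    (A : Set Ω) (hA : ¬ Small A) (hAL : ∀ a ∈ A, Lim a) {Z : Type} [TopologicalSpace Z]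
    [T35Space Z] [SecondCountableTopology Z] (h : Sp 𝒯 A → Z) (hh : Continuous h) :
    (range h).Countable :=
  countable_img 𝒯 hc A hA hAL h hh

lemma regular_sum {X Y : Type} [TopologicalSpace X] [TopologicalSpace Y] [RegularSpace X]
    [RegularSpace Y] : RegularSpace (X ⊕ Y) := by
  apply RegularSpace.of_exists_mem_nhds_isClosed_subset
  rintro (x | y) s hs
  · have h1 : Sum.inl ⁻¹' s ∈ 𝓝 x := continuous_inl.continuousAt hs
    obtain ⟨t, ht, htc, hts⟩ := exists_mem_nhds_isClosed_subset h1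
    refine ⟨Sum.inl '' t, isOpenMap_inl.image_mem_nhds ht, isClosedMap_inl _ htc, ?_⟩
    rintro _ ⟨a, ha, rfl⟩
    exact hts ha
  · have h1 : Sum.inr ⁻¹' s ∈ 𝓝 y := continuous_inr.continuousAt hs
    obtain ⟨t, ht, htc, hts⟩ := exists_mem_nhds_isClosed_subset h1
    refine ⟨Sum.inr '' t, isOpenMap_inr.image_mem_nhds ht, isClosedMap_inr _ htc, ?_⟩
    rintro _ ⟨a, ha, rfl⟩
    exact hts ha

variable [WellFoundedLT Ω] [Uncountable Ω]

include 𝒯 in
theorem main (hc : ∀ a : Ω, (Iio a).Countable) (hT : Uncountable T) :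
    ∃ (X : Type) (_ : TopologicalSpace X), T35Space X ∧ LindelofSpace X ∧ OmegaStable X ∧
      ¬ LindelofSpace (X × X) := by
  obtain ⟨A, B, hA, hB, hAB, hAL, hBL⟩ := exists_disjoint hc
  have hLA : LindelofSpace (Sp 𝒯 A) := lindelof 𝒯 hc A hA hAL
  have hLB : LindelofSpace (Sp 𝒯 B) := lindelof 𝒯 hc B hB hBL
  have hTA : T3Space (Sp 𝒯 A) := t3 (𝒯 := 𝒯) (P := {t | 𝒯.lv t ∈ A}) fun p hp => hAL _ hp
  have hTB : T3Space (Sp 𝒯 B) := t3 (𝒯 := 𝒯) (P := {t | 𝒯.lv t ∈ B}) fun p hp => hBL _ hp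
  have hTC : T3Space (Sp 𝒯 (A ∪ B)) :=
    t3 (𝒯 := 𝒯) (P := {t | 𝒯.lv t ∈ A ∪ B}) fun p hp => hp.elim (hAL _) (hBL _)
  refine ⟨Sp 𝒯 A ⊕ Sp 𝒯 B, inferInstance, ?_, inferInstance, ?_, ?_⟩
  · have : RegularSpace (Sp 𝒯 A ⊕ Sp 𝒯 B) := regular_sum
    infer_instance
  · intro Y Z _ _ _ _ _ f g hf hfs hg hgb
    have h1 : (range (fun x : Sp 𝒯 A => g (f (Sum.inl x)))).Countable :=
      countable_img' hc A hA hAL _ (hg.comp (hf.comp continuous_inl))
    have h2 : (range (fun x : Sp 𝒯 B => g (f (Sum.inr x)))).Countable :=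
      countable_img' hc B hB hBL _ (hg.comp (hf.comp continuous_inr))
    have hY : Countable Y := by
      have h3 : (univ : Set Y) ⊆ g ⁻¹' (range (fun x : Sp 𝒯 A => g (f (Sum.inl x))) ∪
          range (fun x : Sp 𝒯 B => g (f (Sum.inr x)))) := by
        intro y _
        obtain ⟨x, rfl⟩ := hfs y
        rcases x with t | t
        · exact Or.inl ⟨t, rfl⟩
        · exact Or.inr ⟨t, rfl⟩
      exact countable_univ_iff.1 (((h1.union h2).preimage hgb.1).mono h3)
    refine ⟨range fun y : Y => ({y} : Set Y), countable_range _, fun U _ => ?_⟩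
    refine ⟨(fun y : Y => ({y} : Set Y)) '' U, ?_, ?_⟩
    · rintro _ ⟨y, _, rfl⟩
      exact ⟨y, rfl⟩
    · ext y; simp
  · intro hL
    let d : T → (Sp 𝒯 A ⊕ Sp 𝒯 B) × (Sp 𝒯 A ⊕ Sp 𝒯 B) := fun t => (Sum.inl t, Sum.inr t)
    let φ : Sp 𝒯 A ⊕ Sp 𝒯 B → Sp 𝒯 (A ∪ B) := Sum.elim (toSp 𝒯) (toSp 𝒯)
    have hφ : Continuous φ := (continuous_toSp subset_union_left).sumElim
      (continuous_toSp subset_union_right)
    have hcl : IsClosed (range d) := by
      have : range d = (Prod.fst ⁻¹' (range Sum.inl) ∩ Prod.snd ⁻¹' (range Sum.inr)) ∩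
          {p | φ p.1 = φ p.2} := by
        ext ⟨x, y⟩
        constructor
        · rintro ⟨t, ht⟩
          obtain ⟨rfl, rfl⟩ := Prod.mk.inj ht
          exact ⟨⟨⟨t, rfl⟩, ⟨t, rfl⟩⟩, rfl⟩
        · rintro ⟨⟨⟨t, rfl⟩, ⟨t', rfl⟩⟩, h⟩
          have h : t = t' := h
          subst h
          exact ⟨t, rfl⟩
      rw [this]
      exact ((isClosed_range_inl.preimage continuous_fst).inter
        (isClosed_range_inr.preimage continuous_snd)).inter
        (isClosed_eq (hφ.comp continuous_fst) (hφ.comp continuous_snd))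
    have hlin : IsLindelof (range d) := hcl.isLindelof
    classical
    let W : T → Set ((Sp 𝒯 A ⊕ Sp 𝒯 B) × (Sp 𝒯 A ⊕ Sp 𝒯 B)) := fun t =>
      if 𝒯.lv t ∈ A then univ ×ˢ (Sum.inr '' ({t} : Set (Sp 𝒯 B)))
        else (Sum.inl '' ({t} : Set (Sp 𝒯 A))) ×ˢ univ
    have hW : ∀ t, IsOpen (W t) := by
      intro t
      by_cases h : 𝒯.lv t ∈ A
      · simp only [W, if_pos h]
        exact isOpen_univ.prod (isOpenMap_inr _
          (isOpen_sing hBL t (fun h' => (Set.disjoint_left.1 hAB h) h')))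
      · simp only [W, if_neg h]
        exact IsOpen.prod (isOpenMap_inl _ (isOpen_sing hAL t h)) isOpen_univ
    have hW1 : ∀ t s, d s ∈ W t ↔ s = t := by
      intro t s
      by_cases h : 𝒯.lv t ∈ A
      · simp only [W, if_pos h]
        constructor
        · rintro ⟨-, t', ht', h2⟩
          have ht' : t' = t := ht'
          exact (Sum.inr_injective h2).symm.trans ht'
        · rintro rfl
          exact ⟨mem_univ _, ⟨_, rfl, rfl⟩⟩
      · simp only [W, if_neg h]
        constructor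
        · rintro ⟨⟨t', ht', h2⟩, -⟩
          have ht' : t' = t := ht'
          exact (Sum.inl_injective h2).symm.trans ht'
        · rintro rfl
          exact ⟨⟨_, rfl, rfl⟩, mem_univ _⟩
    obtain ⟨c, hcc, hcs⟩ := hlin.elim_countable_subcover W hW (by
      rintro _ ⟨t, rfl⟩
      exact mem_iUnion.2 ⟨t, (hW1 t t).2 rfl⟩)
    have : (univ : Set T) ⊆ c := by
      intro t _
      obtain ⟨s, hs, hts⟩ := mem_iUnion₂.1 (hcs ⟨t, rfl⟩)
      rw [hW1] at hts
      rw [hts]
      exact hs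
    exact not_countable_univ (hcc.mono this)

end final

/-- There is a Lindelöf `ω`-stable Tychonoff space `X` such that `X × X` is not Lindelöf, and in
fact no finite power `X ^ n` with `n ≥ 2` is Lindelöf. -/
theorem result : ∃ (X : Type) (_ : TopologicalSpace X),
    T35Space X ∧ LindelofSpace X ∧ OmegaStable X ∧
      ¬ LindelofSpace (X × X) ∧ ∀ n : ℕ, 2 ≤ n → ¬ LindelofSpace (Fin n → X) := by
  obtain ⟨Ω, _, _, _, hc⟩ := exists_omega
  choose C hC1 hC2 hC3 using exists_ladder hc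
  have 𝒯 : ATree Ω (Node C) := Node.tree hc hC1 hC2 hC3
  have hT : Uncountable (Node C) := Node.uncountable (C := C) hc hC1 hC2 hC3
  obtain ⟨X, tX, h1, h2, h3, h4⟩ := main (𝒯 := 𝒯) hc hT
  refine ⟨X, tX, h1, h2, h3, h4, fun n hn hL => h4 ?_⟩
  have hcont : Continuous (fun f : Fin n → X => ((f ⟨0, by omega⟩, f ⟨1, by omega⟩) : X × X)) :=
    (continuous_apply _).prodMk (continuous_apply _)
  have hrange : range (fun f : Fin n → X => ((f ⟨0, by omega⟩, f ⟨1, by omega⟩) : X × X)) = univ := by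
    rw [range_eq_univ]
    rintro ⟨x, y⟩
    refine ⟨fun i => if i.1 = 0 then x else y, ?_⟩
    simp
  rw [← isLindelof_univ_iff, ← hrange]
  exact isLindelof_range hcont

end Pool.Agent.Results.MP_b69c94_gt.SquareNotLindelof
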